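import Pool.Agent.N678.CL.Q

set_option autoImplicit false
open scoped InnerProductSpace ENNReal
open Pool.Agent.Helper526.Sch Filter Topology

namespace Pool.Agent.N678.CL

universe u v

variable {H : Type u} [NormedAddCommGroup H] [InnerProductSpace ℂ H] [CompleteSpace H]

theorem tend_tsum {J : Type*} {κ : J → Type*} (j : J) (f : κ j → ℝ≥0∞) :
    Tendsto (fun S : ∀ j, Finset (κ j) => ∑ k ∈ S j, f k)
      (Filter.pi fun j => (atTop : Filter (Finset (κ j)))) (𝓝 (∑' k, f k)) :=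
  (show Tendsto (fun s : Finset (κ j) => ∑ k ∈ s, f k) atTop (𝓝 (∑' k, f k)) from
    ENNReal.summable.hasSum).comp (tend_pi j)

theorem isCompact_comb {J : Type*} [Fintype J] (c : J → ℂ) {A : J → H →L[ℂ] H}
    (hA : ∀ j, IsCompactOperator (A j)) : IsCompactOperator (∑ j, c j • A j : H →L[ℂ] H) := by
  classical
  have : ∀ s : Finset J, IsCompactOperator (∑ j ∈ s, c j • A j : H →L[ℂ] H) := by
    intro s
    induction s using Finset.induction_on with
    | empty => simpa using (isCompactOperator_zero : IsCompactOperator (0 : H → H))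
    | insert a s ha ih =>
      rw [Finset.sum_insert ha]
      exact ((hA a).smul (c a)).add ih
  exact this Finset.univ

section

variable {J L : Type*} [Fintype J] [Fintype L] [DecidableEq J] (T : L → J → ℝ) {N : ℝ}
    (hN : 0 < N) (hT1 : ∀ l j, |T l j| ≤ 1)
    (hT : ∀ j k, ∑ l, T l j * T l k = if j = k then N else 0)
    {A : J → H →L[ℂ] H} (hA : ∀ j, IsCompactOperator (A j))
    {C : L → H →L[ℂ] H} (hC : ∀ l, C l = ∑ j, (T l j : ℂ) • A j)

include hN hT1 hT hA hC in
/-- for `1 < p ≤ 2` -/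
theorem q2_enn {ι : Type v} (b : HilbertBasis ι ℂ H) {p q : ℝ} (hp1 : 1 < p) (hp2 : p ≤ 2)
    (hpq : 1 / p + 1 / q = 1) :
    ∑ l, trAbsPow b p (C l) ^ (q / p) ≤
      ENNReal.ofReal N * (∑ j, trAbsPow b p (A j)) ^ (q / p) := by
  classical
  have hp0 : 0 < p := by linarith
  have hq' : 1 / q = 1 - 1 / p := by linarith
  have hp' : 1 / p < 1 := by rw [div_lt_one hp0]; exact hp1
  have hq0 : 0 < q := by
    have : 0 < 1 / q := by rw [hq']; linarith
    exact one_div_pos.1 this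
  have hqp : 0 < q / p := by positivity
  have hCc : ∀ l, IsCompactOperator (C l) := fun l => by rw [hC l]; exact isCompact_comb _ hA
  choose sA hsA using fun j => exists_SV.{u, v} (hA j)
  choose sC hsC using fun l => exists_SV.{u, v} (hCc l)
  by_cases htop : ∑ j, trAbsPow b p (A j) = ⊤
  · rw [htop, ENNReal.top_rpow_of_pos hqp, ENNReal.mul_top (by simpa using hN)]
    exact le_top
  set X : ℝ := (∑ j, trAbsPow b p (A j)).toReal with hX
  have hXe : ENNReal.ofReal X = ∑ j, trAbsPow b p (A j) := ENNReal.ofReal_toReal htop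
  have hX0 : 0 ≤ X := ENNReal.toReal_nonneg
  have hXb : ∀ S : ∀ j, Finset (sA j).κ, ∑ j, ∑ k ∈ S j, (sA j).σ k ^ p ≤ X := by
    intro S
    refine (ENNReal.ofReal_le_ofReal_iff hX0).1 ?_
    rw [hXe, ENNReal.ofReal_sum_of_nonneg fun j _ => Finset.sum_nonneg fun k _ =>
      Real.rpow_nonneg ((sA j).pos k).le _]
    refine Finset.sum_le_sum fun j _ => ?_
    rw [hsA j p hp0 b, ENNReal.ofReal_sum_of_nonneg fun k _ =>
      Real.rpow_nonneg ((sA j).pos k).le _]
    exact ENNReal.sum_le_tsum _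
  have hfin := q2_fin T hN hT1 hT hC sA sC hp1 hp2 hpq hX0 hXb
  have hlim : Tendsto (fun S' : ∀ l, Finset (sC l).κ =>
      ∑ l, (∑ k ∈ S' l, ENNReal.ofReal ((sC l).σ k ^ p)) ^ (q / p))
      (Filter.pi fun l => (atTop : Filter (Finset (sC l).κ)))
      (𝓝 (∑ l, trAbsPow b p (C l) ^ (q / p))) := by
    refine tendsto_finsetSum _ fun l _ => ?_
    rw [hsC l p hp0 b]
    exact (tend_tsum (κ := fun l => (sC l).κ) l
      (fun k => ENNReal.ofReal ((sC l).σ k ^ p))).ennrpow_const _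
  refine le_of_tendsto' hlim fun S' => ?_
  have h1 := ENNReal.ofReal_le_ofReal (hfin S')
  rw [ENNReal.ofReal_mul hN.le, ← ENNReal.ofReal_rpow_of_nonneg hX0 hqp.le, hXe,
    ENNReal.ofReal_sum_of_nonneg fun l _ => Real.rpow_nonneg (Finset.sum_nonneg fun k _ =>
      Real.rpow_nonneg ((sC l).pos k).le _) _] at h1
  refine le_trans (le_of_eq ?_) h1
  refine Finset.sum_congr rfl fun l _ => ?_
  rw [← ENNReal.ofReal_rpow_of_nonneg (Finset.sum_nonneg fun k _ =>
      Real.rpow_nonneg ((sC l).pos k).le _) hqp.le,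
    ENNReal.ofReal_sum_of_nonneg fun k _ => Real.rpow_nonneg ((sC l).pos k).le _]

include hN hT1 hT hA hC in
/-- for `2 ≤ p` -/
theorem q1_enn {ι : Type v} (b : HilbertBasis ι ℂ H) {p q : ℝ} (hp2 : 2 ≤ p)
    (hpq : 1 / p + 1 / q = 1) :
    ENNReal.ofReal N * (∑ j, trAbsPow b p (A j)) ^ (q / p) ≤
      ∑ l, trAbsPow b p (C l) ^ (q / p) := by
  classical
  have hp0 : 0 < p := by linarith
  have hq' : 1 / q = 1 - 1 / p := by linarith
  have hp' : 1 / p ≤ 1 / 2 := one_div_le_one_div_of_le (by norm_num) hp2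
  have hq0 : 0 < q := by
    have : 0 < 1 / q := by rw [hq']; linarith
    exact one_div_pos.1 this
  have hqp : 0 < q / p := by positivity
  have hCc : ∀ l, IsCompactOperator (C l) := fun l => by rw [hC l]; exact isCompact_comb _ hA
  choose sA hsA using fun j => exists_SV.{u, v} (hA j)
  choose sC hsC using fun l => exists_SV.{u, v} (hCc l)
  by_cases htop : ∑ l, trAbsPow b p (C l) ^ (q / p) = ⊤
  · rw [htop]; exact le_top
  set R : ℝ := (∑ l, trAbsPow b p (C l) ^ (q / p)).toReal with hR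
  have hRe : ENNReal.ofReal R = ∑ l, trAbsPow b p (C l) ^ (q / p) := ENNReal.ofReal_toReal htop
  have hR0 : 0 ≤ R := ENNReal.toReal_nonneg
  have hRb : ∀ S' : ∀ l, Finset (sC l).κ,
      ∑ l, (∑ k ∈ S' l, (sC l).σ k ^ p) ^ (q / p) ≤ R := by
    intro S'
    refine (ENNReal.ofReal_le_ofReal_iff hR0).1 ?_
    rw [hRe, ENNReal.ofReal_sum_of_nonneg fun l _ => Real.rpow_nonneg (Finset.sum_nonneg
      fun k _ => Real.rpow_nonneg ((sC l).pos k).le _) _]
    refine Finset.sum_le_sum fun l _ => ?_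
    rw [← ENNReal.ofReal_rpow_of_nonneg (Finset.sum_nonneg fun k _ =>
      Real.rpow_nonneg ((sC l).pos k).le _) hqp.le,
      ENNReal.ofReal_sum_of_nonneg fun k _ => Real.rpow_nonneg ((sC l).pos k).le _,
      hsC l p hp0 b]
    exact ENNReal.rpow_le_rpow (ENNReal.sum_le_tsum _) hqp.le
  have hfin := q1_fin T hN hT1 hT hC sA sC hp2 hpq hRb
  have hlim : Tendsto (fun S : ∀ j, Finset (sA j).κ =>
      ENNReal.ofReal N * (∑ j, ∑ k ∈ S j, ENNReal.ofReal ((sA j).σ k ^ p)) ^ (q / p))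
      (Filter.pi fun j => (atTop : Filter (Finset (sA j).κ)))
      (𝓝 (ENNReal.ofReal N * (∑ j, trAbsPow b p (A j)) ^ (q / p))) := by
    refine ENNReal.Tendsto.const_mul ?_ (Or.inr ENNReal.ofReal_ne_top)
    refine Tendsto.ennrpow_const _ ?_
    refine tendsto_finsetSum _ fun j _ => ?_
    rw [hsA j p hp0 b]
    exact tend_tsum (κ := fun j => (sA j).κ) j (fun k => ENNReal.ofReal ((sA j).σ k ^ p))
  refine le_of_tendsto' hlim fun S => ?_
  have h1 := ENNReal.ofReal_le_ofReal (hfin S)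
  rw [ENNReal.ofReal_mul hN.le, hRe] at h1
  refine le_trans (le_of_eq ?_) h1
  rw [← ENNReal.ofReal_rpow_of_nonneg (Finset.sum_nonneg fun j _ => Finset.sum_nonneg fun k _ =>
      Real.rpow_nonneg ((sA j).pos k).le _) hqp.le,
    ENNReal.ofReal_sum_of_nonneg fun j _ => Finset.sum_nonneg fun k _ =>
      Real.rpow_nonneg ((sA j).pos k).le _]
  congr 2
  refine Finset.sum_congr rfl fun j _ => ?_
  rw [ENNReal.ofReal_sum_of_nonneg fun k _ => Real.rpow_nonneg ((sA j).pos k).le _]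

end

end Pool.Agent.N678.CL
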