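import Mathlib

set_option autoImplicit false
open scoped InnerProductSpace ENNReal

namespace Pool.Agent.N678.CL

variable {κ : Type*} {H : Type*} [NormedAddCommGroup H] [InnerProductSpace ℂ H] [CompleteSpace H]

omit [CompleteSpace H] in
theorem tau_mem (e : HilbertBasis κ ℂ H) (u x : H) :
    Memℓp (fun m : κ => ⟪x, e m⟫_ℂ • u) 2 := by
  rw [memℓp_gen_iff (by norm_num)]
  have h : Summable fun m => ‖⟪e m, x⟫_ℂ‖ ^ 2 := e.orthonormal.inner_products_summable x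
  have h2 := h.mul_right (‖u‖ ^ 2)
  refine h2.congr fun m => ?_
  rw [norm_smul, ← inner_conj_symm, RCLike.norm_conj]
  simp [mul_pow]

/-- the rank one operator `y ↦ ⟪x, y⟫ u` as a Hilbert-Schmidt operator, i.e. as the square
summable family of its values on the Hilbert basis `e` -/
noncomputable def tau (e : HilbertBasis κ ℂ H) (u x : H) : lp (fun _ : κ => H) 2 :=
  ⟨fun m => ⟪x, e m⟫_ℂ • u, tau_mem e u x⟩

theorem inner_tau (e : HilbertBasis κ ℂ H) (u x u' x' : H) :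
    ⟪tau e u' x', tau e u x⟫_ℂ = ⟪u', u⟫_ℂ * ⟪x, x'⟫_ℂ := by
  rw [lp.inner_eq_tsum]
  have h := (e.hasSum_inner_mul_inner x x').mul_left ⟪u', u⟫_ℂ
  rw [← h.tsum_eq]
  refine tsum_congr fun m => ?_
  change ⟪⟪x', e m⟫_ℂ • u', ⟪x, e m⟫_ℂ • u⟫_ℂ = _
  rw [inner_smul_left, inner_smul_right, inner_conj_symm]
  ring

theorem orthonormal_tau (e : HilbertBasis κ ℂ H) {ι : Type*} {u x : ι → H}
    (hu : Orthonormal ℂ u) (hx : Orthonormal ℂ x) : Orthonormal ℂ fun i => tau e (u i) (x i) := by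
  classical
  rw [orthonormal_iff_ite]
  intro i k
  rw [inner_tau, orthonormal_iff_ite.1 hu i k, orthonormal_iff_ite.1 hx k i]
  by_cases h : i = k
  · simp [h]
  · simp [h]

theorem sum_tau_le (e : HilbertBasis κ ℂ H) {ι : Type*} [Fintype ι] {u' x' : ι → H}
    (hu : Orthonormal ℂ u') (hx : Orthonormal ℂ x') {u x : H} (h1 : ‖u‖ = 1) (h2 : ‖x‖ = 1) :
    ∑ i, ‖⟪tau e (u' i) (x' i), tau e u x⟫_ℂ‖ ≤ 1 := by
  have e1 : ∑ i, ‖⟪tau e (u' i) (x' i), tau e u x⟫_ℂ‖ =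
      ∑ i, ‖⟪u' i, u⟫_ℂ‖ * ‖⟪x' i, x⟫_ℂ‖ := by
    refine Finset.sum_congr rfl fun i _ => ?_
    rw [inner_tau, norm_mul, ← inner_conj_symm x (x' i), RCLike.norm_conj]
  rw [e1]
  refine (Real.sum_mul_le_sqrt_mul_sqrt _ _ _).trans ?_
  have b1 := hu.sum_inner_products_le (x := u) (s := Finset.univ)
  have b2 := hx.sum_inner_products_le (x := x) (s := Finset.univ)
  rw [h1, one_pow] at b1
  rw [h2, one_pow] at b2
  calc _ ≤ Real.sqrt 1 * Real.sqrt 1 := mul_le_mul (Real.sqrt_le_sqrt b1) (Real.sqrt_le_sqrt b2)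
        (Real.sqrt_nonneg _) (Real.sqrt_nonneg _)
    _ = 1 := by simp

end Pool.Agent.N678.CL
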