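import Pool.Agent.Helper526.Sch.Trace

set_option autoImplicit false
open scoped InnerProductSpace ENNReal
open Pool.Agent.Helper526.Sch

namespace Pool.Agent.N678.CL

universe u v

variable {H : Type u} [NormedAddCommGroup H] [InnerProductSpace ℂ H] [CompleteSpace H]

/-- singular value decomposition of a compact operator -/
theorem schmidt {X : H →L[ℂ] H} (hX : IsCompactOperator X) :
    ∃ (κ : Type u) (σ : κ → ℝ) (v y : κ → H), (∀ k, 0 < σ k) ∧ Orthonormal ℂ v ∧
      Orthonormal ℂ y ∧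
      (∀ w z, HasSum (fun k => (σ k : ℂ) * (⟪z, y k⟫_ℂ * ⟪v k, w⟫_ℂ)) ⟪z, X w⟫_ℂ) ∧
      (∀ k, X (v k) = (σ k : ℂ) • y k) ∧
      ∀ (p : ℝ), 0 < p → ∀ {ι : Type v} (b : HilbertBasis ι ℂ H),
        trAbsPow b p X = ∑' k, ENNReal.ofReal (σ k ^ p) := by
  classical
  have hc : IsCompactOperator (star X * X : H →L[ℂ] H) := hX.clm_comp (star X)
  obtain ⟨κ, v, lam, hv⟩ := exists_eigenbasis hc (isSelfAdjoint_star_mul X)
  have hlam : ∀ k, lam k = ‖X (v k)‖ ^ 2 := eigen_nonneg v hv
  have hort : ∀ i k, ⟪X (v i), X (v k)⟫_ℂ = if i = k then ((‖X (v k)‖ : ℂ)) ^ 2 else 0 := by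
    intro i k
    have h1 : ⟪v i, (star X * X) (v k)⟫_ℂ = ⟪X (v i), X (v k)⟫_ℂ :=
      ContinuousLinearMap.adjoint_inner_right X (v i) (X (v k))
    rw [← h1, hv k, inner_smul_right, orthonormal_iff_ite.1 v.orthonormal i k, hlam]
    split_ifs with h
    · push_cast; ring
    · simp
  have hne : ∀ k : {k // X (v k) ≠ 0}, (‖X (v k)‖ : ℂ) ≠ 0 := fun k => by
    simpa using k.2
  refine ⟨{k // X (v k) ≠ 0}, fun k => ‖X (v k)‖, fun k => v k,
    fun k => ((‖X (v k)‖ : ℂ))⁻¹ • X (v k), fun k => norm_pos_iff.2 k.2,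
    v.orthonormal.comp _ Subtype.val_injective, ?_, ?_, ?_, ?_⟩
  · rw [orthonormal_iff_ite]
    intro i k
    rw [inner_smul_left, inner_smul_right, hort]
    by_cases h : i = k
    · subst h
      simp only [if_true]
      rw [map_inv₀, Complex.conj_ofReal]
      field_simp [hne i]
    · have : (i : κ) ≠ k := fun h' => h (Subtype.ext h')
      simp [h, this]
  · intro w z
    have h1 := v.hasSum_inner_mul_inner (ContinuousLinearMap.adjoint X z) w
    rw [ContinuousLinearMap.adjoint_inner_left] at h1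
    have h2 : HasSum (fun k => ⟪z, X (v k)⟫_ℂ * ⟪v k, w⟫_ℂ) ⟪z, X w⟫_ℂ :=
      h1.congr_fun fun k => by rw [ContinuousLinearMap.adjoint_inner_left]
    have hs : Function.support (fun k => ⟪z, X (v k)⟫_ℂ * ⟪v k, w⟫_ℂ) ⊆ {k | X (v k) ≠ 0} := by
      intro k hk hk0
      apply hk
      simp [hk0]
    have h3 := (hasSum_subtype_iff_of_support_subset hs).2 h2
    refine h3.congr_fun fun k => ?_
    simp only [Function.comp]
    rw [inner_smul_right, ← mul_assoc, ← mul_assoc, mul_inv_cancel₀ (hne k), one_mul]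
  · intro k
    simp only [smul_smul]
    rw [mul_inv_cancel₀ (hne k), one_smul]
  · intro p hp ι b
    rw [trAbsPow_eq b v hv hp]
    have hs : Function.support (fun k => ENNReal.ofReal (lam k ^ (p / 2))) ⊆
        {k | X (v k) ≠ 0} := by
      intro k hk hk0
      apply hk
      simp only [hlam, hk0, norm_zero]
      rw [zero_pow two_ne_zero, Real.zero_rpow (by positivity), ENNReal.ofReal_zero]
    rw [← tsum_subtype_eq_of_support_subset hs]
    refine tsum_congr fun k => ?_
    congr 1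
    rw [hlam, ← Real.rpow_natCast, ← Real.rpow_mul (norm_nonneg _)]
    congr 1
    push_cast
    ring

end Pool.Agent.N678.CL
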