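import Pool.Agent.N678.CL.Main
import Pool.Agent.N678.CL.HS
import Pool.Agent.N678.CL.Schmidt

set_option autoImplicit false
open scoped InnerProductSpace ENNReal
open Pool.Agent.Helper526.Sch

namespace Pool.Agent.N678.CL

universe u v

theorem norm_T {J L : Type*} [Fintype J] [Fintype L] [DecidableEq J] {W : Type*}
    [NormedAddCommGroup W] [InnerProductSpace ℂ W] (T : L → J → ℝ) {N : ℝ}
    (hT : ∀ j k, ∑ l, T l j * T l k = if j = k then N else 0) (v : J → W) :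
    ∑ l, ‖∑ j, (T l j : ℂ) • v j‖ ^ 2 ≤ N * ∑ j, ‖v j‖ ^ 2 := by
  refine le_of_eq ?_
  have key : ((∑ l, ‖∑ j, (T l j : ℂ) • v j‖ ^ 2 : ℝ) : ℂ) = ((N * ∑ j, ‖v j‖ ^ 2 : ℝ) : ℂ) := by
    push_cast
    have e1 : ∀ l, ((‖∑ j, (T l j : ℂ) • v j‖ : ℂ)) ^ 2 =
        ∑ j, ∑ k, ((T l j * T l k : ℝ) : ℂ) * ⟪v j, v k⟫_ℂ := by
      intro l
      have h := inner_self_eq_norm_sq_to_K (𝕜 := ℂ) (∑ j, (T l j : ℂ) • v j)
      refine Eq.trans h.symm ?_
      rw [sum_inner]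
      refine Finset.sum_congr rfl fun j _ => ?_
      rw [inner_sum]
      refine Finset.sum_congr rfl fun k _ => ?_
      rw [inner_smul_left, inner_smul_right, Complex.conj_ofReal]
      push_cast
      ring
    simp only [e1]
    rw [Finset.sum_comm]
    rw [Finset.mul_sum]
    refine Finset.sum_congr rfl fun j _ => ?_
    rw [Finset.sum_comm]
    have e2 : ∀ k, ∑ l, ((T l j * T l k : ℝ) : ℂ) * ⟪v j, v k⟫_ℂ =
        if j = k then (N : ℂ) * ⟪v j, v k⟫_ℂ else 0 := by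
      intro k
      rw [← Finset.sum_mul, ← Complex.ofReal_sum, hT j k]
      split_ifs <;> simp
    simp only [e2]
    rw [Finset.sum_ite_eq]
    simp only [Finset.mem_univ, if_true]
    rw [inner_self_eq_norm_sq_to_K]
    rfl
  exact_mod_cast key

variable {H : Type u} [NormedAddCommGroup H] [InnerProductSpace ℂ H] [CompleteSpace H]

theorem fin_bound {J L : Type*} [Fintype J] [Fintype L] [DecidableEq J] (T : L → J → ℝ) {N : ℝ}
    (hN : 0 ≤ N) (hT1 : ∀ l j, |T l j| ≤ 1)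
    (hT : ∀ j k, ∑ l, T l j * T l k = if j = k then N else 0)
    {κ : J → Type*} {κ' : L → Type*} (v z : ∀ j, κ j → H) (w y : ∀ l, κ' l → H)
    (hv : ∀ j, Orthonormal ℂ (v j)) (hz : ∀ j, Orthonormal ℂ (z j))
    (hw : ∀ l, Orthonormal ℂ (w l)) (hy : ∀ l, Orthonormal ℂ (y l))
    (S : ∀ j, Finset (κ j)) (S' : ∀ l, Finset (κ' l))
    (a : ∀ j, κ j → ℝ) (ha : ∀ j, ∀ k ∈ S j, 0 < a j k)
    (b : ∀ l, κ' l → ℝ) (hb : ∀ l, ∀ k ∈ S' l, 0 < b l k)
    {p q : ℝ} (hp1 : 1 < p) (hp2 : p ≤ 2) (hpq : 1 / p + 1 / q = 1) :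
    ‖∑ l, ∑ k' ∈ S' l, ∑ j, ∑ k ∈ S j, (T l j : ℂ) * (a j k : ℂ) * (b l k' : ℂ) *
        (⟪y l k', z j k⟫_ℂ * ⟪v j k, w l k'⟫_ℂ)‖ ≤
      N ^ (1 / q) * ((∑ j, ∑ k ∈ S j, a j k ^ p) *
        ∑ l, (∑ k' ∈ S' l, b l k' ^ q) ^ (p / q)) ^ (1 / p) := by
  obtain ⟨s, e, _⟩ := exists_hilbertBasis ℂ H
  have key := interp T (fun j (i : S j) => tau e (z j i) (v j i))
    (fun l (i : S' l) => tau e (y l i) (w l i)) hN hT1 (norm_T T hT)
    (fun j => orthonormal_tau e ((hz j).comp _ Subtype.val_injective)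
      ((hv j).comp _ Subtype.val_injective))
    (fun l => orthonormal_tau e ((hy l).comp _ Subtype.val_injective)
      ((hw l).comp _ Subtype.val_injective))
    (fun j i l => sum_tau_le e ((hy l).comp _ Subtype.val_injective)
      ((hw l).comp _ Subtype.val_injective) ((hz j).1 _) ((hv j).1 _))
    (fun j i => a j i) (fun j i => ha j i i.2) (fun l i => b l i) (fun l i => hb l i i.2)
    hp1 hp2 hpq
  unfold form at key
  simp only [inner_tau] at key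
  have e1 : ∀ j, ∑ i : S j, a j i ^ p = ∑ k ∈ S j, a j k ^ p := fun j =>
    Finset.sum_coe_sort (S j) (fun k => a j k ^ p)
  have e2 : ∀ l, ∑ i : S' l, b l i ^ q = ∑ k ∈ S' l, b l k ^ q := fun l =>
    Finset.sum_coe_sort (S' l) (fun k => b l k ^ q)
  simp only [e1, e2] at key
  refine le_trans (le_of_eq ?_) key
  congr 1
  refine Finset.sum_congr rfl fun l _ => ?_
  rw [← Finset.sum_coe_sort]
  refine Finset.sum_congr rfl fun i' _ => ?_
  refine Finset.sum_congr rfl fun j _ => ?_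
  rw [← Finset.sum_coe_sort]

/-- singular value decomposition data -/
structure SV (X : H →L[ℂ] H) where
  κ : Type u
  σ : κ → ℝ
  v : κ → H
  y : κ → H
  pos : ∀ k, 0 < σ k
  ov : Orthonormal ℂ v
  oy : Orthonormal ℂ y
  hs : ∀ w z, HasSum (fun k => (σ k : ℂ) * (⟪z, y k⟫_ℂ * ⟪v k, w⟫_ℂ)) ⟪z, X w⟫_ℂ
  ap : ∀ k, X (v k) = (σ k : ℂ) • y k

theorem exists_SV {X : H →L[ℂ] H} (hX : IsCompactOperator X) :
    ∃ s : SV X, ∀ (p : ℝ), 0 < p → ∀ {ι : Type v} (b : HilbertBasis ι ℂ H),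
        trAbsPow b p X = ∑' k, ENNReal.ofReal (s.σ k ^ p) := by
  obtain ⟨κ, σ, v, y, h1, h2, h3, h4, h5, h6⟩ := schmidt.{u, v} hX
  exact ⟨⟨κ, σ, v, y, h1, h2, h3, h4, h5⟩, h6⟩

end Pool.Agent.N678.CL
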