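import Mathlib

set_option autoImplicit false
open Complex
open scoped InnerProductSpace

namespace Pool.Agent.N678.CL

/-- three lines theorem for exponential sums -/
theorem expsum {X : Type*} (s : Finset X) (c : X → ℂ) (α β : X → ℝ) {A B θ : ℝ}
    (hθ0 : 0 ≤ θ) (hθ1 : θ ≤ 1)
    (h0 : ∀ z : ℂ, z.re = 0 → ‖∑ x ∈ s, c x * exp ((α x : ℂ) + (β x : ℂ) * z)‖ ≤ A)
    (h1 : ∀ z : ℂ, z.re = 1 → ‖∑ x ∈ s, c x * exp ((α x : ℂ) + (β x : ℂ) * z)‖ ≤ B) :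
    ‖∑ x ∈ s, c x * exp ((α x : ℂ) + (β x : ℂ) * (θ : ℂ))‖ ≤ A ^ (1 - θ) * B ^ θ := by
  have hd : Differentiable ℂ (fun z : ℂ => ∑ x ∈ s, c x * exp ((α x : ℂ) + (β x : ℂ) * z)) := by
    fun_prop
  have hb : BddAbove ((norm ∘ fun z : ℂ => ∑ x ∈ s, c x * exp ((α x : ℂ) + (β x : ℂ) * z)) ''
      HadamardThreeLines.verticalClosedStrip 0 1) := by
    refine ⟨∑ x ∈ s, ‖c x‖ * Real.exp (|α x| + |β x|), ?_⟩
    rintro _ ⟨z, hz, rfl⟩
    have hz' : 0 ≤ z.re ∧ z.re ≤ 1 := by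
      simpa [HadamardThreeLines.verticalClosedStrip] using hz
    refine (norm_sum_le _ _).trans (Finset.sum_le_sum fun x _ => ?_)
    rw [norm_mul, Complex.norm_exp]
    refine mul_le_mul_of_nonneg_left (Real.exp_le_exp.2 ?_) (norm_nonneg _)
    have e1 : ((α x : ℂ) + (β x : ℂ) * z).re = α x + β x * z.re := by simp
    rw [e1]
    have e2 : β x * z.re ≤ |β x| * 1 :=
      (mul_le_mul_of_nonneg_right (le_abs_self _) hz'.1).trans
        (mul_le_mul_of_nonneg_left hz'.2 (abs_nonneg _))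
    linarith [le_abs_self (α x)]
  have := HadamardThreeLines.norm_le_interp_of_mem_verticalClosedStrip₀₁'
    (f := fun z : ℂ => ∑ x ∈ s, c x * exp ((α x : ℂ) + (β x : ℂ) * z)) (z := (θ : ℂ))
    (a := A) (b := B) (by
      simp [HadamardThreeLines.verticalClosedStrip, hθ0, hθ1]) hd.diffContOnCl hb
    (fun z hz => h0 z (by simpa using hz)) (fun z hz => h1 z (by simpa using hz))
  simpa using this

section bounds

variable {J L : Type*} [Fintype J] [Fintype L] {W : Type*} [NormedAddCommGroup W]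
  [InnerProductSpace ℂ W] {ι : J → Type*} [∀ j, Fintype (ι j)] {ι' : L → Type*}
  [∀ l, Fintype (ι' l)] (T : L → J → ℝ) (t : ∀ j, ι j → W) (t' : ∀ l, ι' l → W)

/-- the bilinear form -/
noncomputable def form (a : ∀ j, ι j → ℂ) (b : ∀ l, ι' l → ℂ) : ℂ :=
  ∑ l, ∑ i', ∑ j, ∑ i, (T l j : ℂ) * a j i * b l i' * ⟪t' l i', t j i⟫_ℂ

theorem form_bound_one (hT1 : ∀ l j, |T l j| ≤ 1)
    (h3 : ∀ j i l, ∑ i', ‖⟪t' l i', t j i⟫_ℂ‖ ≤ 1) (a : ∀ j, ι j → ℂ) (b : ∀ l, ι' l → ℂ)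
    (Y : L → ℝ) (hY0 : ∀ l, 0 ≤ Y l) (hY : ∀ l i', ‖b l i'‖ ≤ Y l) :
    ‖form T t t' a b‖ ≤ (∑ j, ∑ i, ‖a j i‖) * ∑ l, Y l := by
  have e : (∑ j, ∑ i, ‖a j i‖) * ∑ l, Y l = ∑ l, ∑ j, ∑ i, ‖a j i‖ * Y l := by
    rw [Finset.sum_mul, Finset.sum_comm]
    refine Finset.sum_congr rfl fun j _ => ?_
    rw [Finset.sum_mul, Finset.sum_comm]
    refine Finset.sum_congr rfl fun i _ => ?_
    rw [Finset.mul_sum]
  rw [e]
  unfold form
  refine (norm_sum_le _ _).trans (Finset.sum_le_sum fun l _ => ?_)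
  have e2 : ∑ i', ∑ j, ∑ i, (T l j : ℂ) * a j i * b l i' * ⟪t' l i', t j i⟫_ℂ =
      ∑ j, ∑ i, ∑ i', (T l j : ℂ) * a j i * b l i' * ⟪t' l i', t j i⟫_ℂ := by
    rw [Finset.sum_comm]
    refine Finset.sum_congr rfl fun j _ => ?_
    rw [Finset.sum_comm]
  rw [e2]
  refine (norm_sum_le _ _).trans (Finset.sum_le_sum fun j _ => ?_)
  refine (norm_sum_le _ _).trans (Finset.sum_le_sum fun i _ => ?_)
  refine (norm_sum_le _ _).trans ?_
  calc ∑ i', ‖(T l j : ℂ) * a j i * b l i' * ⟪t' l i', t j i⟫_ℂ‖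
      ≤ ∑ i', ‖a j i‖ * Y l * ‖⟪t' l i', t j i⟫_ℂ‖ := by
        refine Finset.sum_le_sum fun i' _ => ?_
        rw [norm_mul, norm_mul, norm_mul, Complex.norm_real, Real.norm_eq_abs]
        refine mul_le_mul_of_nonneg_right ?_ (norm_nonneg _)
        refine mul_le_mul ?_ (hY l i') (norm_nonneg _) (norm_nonneg _)
        calc |T l j| * ‖a j i‖ ≤ 1 * ‖a j i‖ :=
              mul_le_mul_of_nonneg_right (hT1 l j) (norm_nonneg _)
          _ = ‖a j i‖ := one_mul _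
    _ = ‖a j i‖ * Y l * ∑ i', ‖⟪t' l i', t j i⟫_ℂ‖ := by rw [Finset.mul_sum]
    _ ≤ ‖a j i‖ * Y l * 1 := mul_le_mul_of_nonneg_left (h3 j i l)
        (mul_nonneg (norm_nonneg _) (hY0 l))
    _ = ‖a j i‖ * Y l := mul_one _

theorem norm_sq_comb {κ : Type*} [Fintype κ] {v : κ → W} (hv : Orthonormal ℂ v) (c : κ → ℂ) :
    ‖∑ i, c i • v i‖ ^ 2 = ∑ i, ‖c i‖ ^ 2 := by
  have h1 : ((‖∑ i, c i • v i‖ : ℂ)) ^ 2 = ((∑ i, ‖c i‖ ^ 2 : ℝ) : ℂ) := by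
    have h2 := hv.inner_sum c c Finset.univ
    rw [inner_self_eq_norm_sq_to_K] at h2
    rw [show ((‖∑ i, c i • v i‖ : ℂ)) = ((‖∑ i, c i • v i‖ : ℝ) : ℂ) from rfl]
    refine Eq.trans ?_ (h2.trans ?_)
    · norm_cast
    · push_cast
      refine Finset.sum_congr rfl fun i _ => ?_
      rw [← Complex.conj_mul']
  exact_mod_cast h1

theorem form_bound_two {N : ℝ} (hN : 0 ≤ N)
    (hT2 : ∀ v : J → W, ∑ l, ‖∑ j, (T l j : ℂ) • v j‖ ^ 2 ≤ N * ∑ j, ‖v j‖ ^ 2)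
    (ht : ∀ j, Orthonormal ℂ (t j)) (ht' : ∀ l, Orthonormal ℂ (t' l))
    (a : ∀ j, ι j → ℂ) (b : ∀ l, ι' l → ℂ) :
    ‖form T t t' a b‖ ≤ Real.sqrt N * (Real.sqrt (∑ j, ∑ i, ‖a j i‖ ^ 2) *
      Real.sqrt (∑ l, ∑ i', ‖b l i'‖ ^ 2)) := by
  set A : J → W := fun j => ∑ i, a j i • t j i with hA
  set C : L → W := fun l => ∑ j, (T l j : ℂ) • A j with hC
  set B : L → W := fun l => ∑ i', (starRingEnd ℂ (b l i')) • t' l i' with hB
  have e1 : form T t t' a b = ∑ l, ⟪B l, C l⟫_ℂ := by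
    unfold form
    refine Finset.sum_congr rfl fun l _ => ?_
    simp only [hB, hC, hA]
    rw [sum_inner]
    refine Finset.sum_congr rfl fun i' _ => ?_
    rw [inner_sum]
    refine Finset.sum_congr rfl fun j _ => ?_
    rw [inner_smul_right, inner_sum, Finset.mul_sum]
    refine Finset.sum_congr rfl fun i _ => ?_
    rw [inner_smul_left, inner_smul_right]
    simp only [Complex.conj_conj]
    ring
  rw [e1]
  have e2 : ‖∑ l, ⟪B l, C l⟫_ℂ‖ ≤ ∑ l, ‖B l‖ * ‖C l‖ :=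
    (norm_sum_le _ _).trans (Finset.sum_le_sum fun l _ => norm_inner_le_norm _ _)
  refine e2.trans ?_
  have e3 := Real.sum_mul_le_sqrt_mul_sqrt Finset.univ (fun l => ‖B l‖) (fun l => ‖C l‖)
  refine e3.trans ?_
  have e4 : ∑ l, ‖B l‖ ^ 2 = ∑ l, ∑ i', ‖b l i'‖ ^ 2 := by
    refine Finset.sum_congr rfl fun l _ => ?_
    rw [hB, norm_sq_comb (ht' l)]
    simp
  have e5 : ∑ l, ‖C l‖ ^ 2 ≤ N * ∑ j, ∑ i, ‖a j i‖ ^ 2 := by
    refine (hT2 A).trans (le_of_eq ?_)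
    congr 1
    refine Finset.sum_congr rfl fun j _ => ?_
    rw [hA, norm_sq_comb (ht j)]
  rw [e4]
  calc Real.sqrt (∑ l, ∑ i', ‖b l i'‖ ^ 2) * Real.sqrt (∑ l, ‖C l‖ ^ 2)
      ≤ Real.sqrt (∑ l, ∑ i', ‖b l i'‖ ^ 2) * Real.sqrt (N * ∑ j, ∑ i, ‖a j i‖ ^ 2) :=
        mul_le_mul_of_nonneg_left (Real.sqrt_le_sqrt e5) (Real.sqrt_nonneg _)
    _ = _ := by rw [Real.sqrt_mul hN]; ring

end bounds

end Pool.Agent.N678.CL
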