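import Pool.Agent.N678.CL.Interp

set_option autoImplicit false
open Complex
open scoped InnerProductSpace

namespace Pool.Agent.N678.CL

variable {J L : Type*} [Fintype J] [Fintype L] {W : Type*} [NormedAddCommGroup W]
  [InnerProductSpace ℂ W] {ι : J → Type*} [∀ j, Fintype (ι j)] {ι' : L → Type*}
  [∀ l, Fintype (ι' l)] (T : L → J → ℝ) (t : ∀ j, ι j → W) (t' : ∀ l, ι' l → W)

theorem form_eq_sum (a : ∀ j, ι j → ℂ) (b : ∀ l, ι' l → ℂ) :
    form T t t' a b = ∑ x : (Σ l, ι' l) × (Σ j, ι j),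
      (T x.1.1 x.2.1 : ℂ) * a x.2.1 x.2.2 * b x.1.1 x.1.2 *
        ⟪t' x.1.1 x.1.2, t x.2.1 x.2.2⟫_ℂ := by
  unfold form
  rw [Fintype.sum_prod_type, Fintype.sum_sigma]
  refine Finset.sum_congr rfl fun l _ => Finset.sum_congr rfl fun i' _ => ?_
  rw [Fintype.sum_sigma]

theorem interp {N : ℝ} (hN : 0 ≤ N) (hT1 : ∀ l j, |T l j| ≤ 1)
    (hT2 : ∀ v : J → W, ∑ l, ‖∑ j, (T l j : ℂ) • v j‖ ^ 2 ≤ N * ∑ j, ‖v j‖ ^ 2)
    (ht : ∀ j, Orthonormal ℂ (t j)) (ht' : ∀ l, Orthonormal ℂ (t' l))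
    (h3 : ∀ j i l, ∑ i', ‖⟪t' l i', t j i⟫_ℂ‖ ≤ 1)
    (a : ∀ j, ι j → ℝ) (ha : ∀ j i, 0 < a j i) (b : ∀ l, ι' l → ℝ) (hb : ∀ l i, 0 < b l i)
    {p q : ℝ} (hp1 : 1 < p) (hp2 : p ≤ 2) (hpq : 1 / p + 1 / q = 1) :
    ‖form T t t' (fun j i => (a j i : ℂ)) (fun l i => (b l i : ℂ))‖ ≤
      N ^ (1 / q) * ((∑ j, ∑ i, a j i ^ p) * ∑ l, (∑ i', b l i' ^ q) ^ (p / q)) ^ (1 / p) := by
  classical
  have hp0 : 0 < p := by linarith
  have hq' : 1 / q = 1 - 1 / p := by linarith
  have hp' : 1 / p < 1 := by rw [div_lt_one hp0]; exact hp1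
  have hp'' : 1 / 2 ≤ 1 / p := one_div_le_one_div_of_le hp0 hp2
  have hq0 : 0 < q := by
    have : 0 < 1 / q := by rw [hq']; linarith
    exact one_div_pos.1 this
  have hpne : p ≠ 0 := hp0.ne'
  have hqne : q ≠ 0 := hq0.ne'
  have hpq2 : p * (1 - 1 / q) = 1 := by
    rw [hq']; field_simp; ring
  set β : L → ℝ := fun l => (∑ i', b l i' ^ q) ^ (1 / q) with hβ
  set X : ℝ := ∑ j, ∑ i, a j i ^ p with hX
  set Y : ℝ := ∑ l, (∑ i', b l i' ^ q) ^ (p / q) with hY
  have hSnn : ∀ l, 0 ≤ ∑ i', b l i' ^ q := fun l =>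
    Finset.sum_nonneg fun i' _ => Real.rpow_nonneg (hb l i').le _
  have hX0 : 0 ≤ X := Finset.sum_nonneg fun j _ => Finset.sum_nonneg fun i _ =>
    Real.rpow_nonneg (ha j i).le _
  have hY0 : 0 ≤ Y := Finset.sum_nonneg fun l _ => Real.rpow_nonneg (hSnn l) _
  have hβpos : ∀ l, ι' l → 0 < β l := by
    intro l i'
    refine Real.rpow_pos_of_pos ?_ _
    exact Finset.sum_pos (fun i _ => Real.rpow_pos_of_pos (hb l i) _) ⟨i', Finset.mem_univ _⟩
  have hβq : ∀ l, β l ^ q = ∑ i', b l i' ^ q := by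
    intro l
    rw [hβ]
    dsimp only
    rw [← Real.rpow_mul (hSnn l), one_div, inv_mul_cancel₀ hqne, Real.rpow_one]
  have hβp : ∀ l, β l ^ p = (∑ i', b l i' ^ q) ^ (p / q) := by
    intro l
    rw [hβ]
    dsimp only
    rw [← Real.rpow_mul (hSnn l)]
    congr 1
    ring
  -- the analytic families
  let aa : ℂ → ∀ j, ι j → ℂ := fun z j i =>
    exp (((p * Real.log (a j i) : ℝ) : ℂ) + ((-(p / 2) * Real.log (a j i) : ℝ) : ℂ) * z)
  let bb : ℂ → ∀ l, ι' l → ℂ := fun z l i =>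
    exp (((p * Real.log (β l) : ℝ) : ℂ) + ((-(p / 2) * Real.log (β l) - q / 2 * Real.log (β l)
      + q / 2 * Real.log (b l i) : ℝ) : ℂ) * z)
  have hform : ∀ z, form T t t' (aa z) (bb z) =
      ∑ x : (Σ l, ι' l) × (Σ j, ι j),
      ((T x.1.1 x.2.1 : ℂ) * ⟪t' x.1.1 x.1.2, t x.2.1 x.2.2⟫_ℂ) *
        exp (((p * Real.log (a x.2.1 x.2.2) + p * Real.log (β x.1.1) : ℝ) : ℂ) +
          ((-(p / 2) * Real.log (a x.2.1 x.2.2) + (-(p / 2) * Real.log (β x.1.1)
            - q / 2 * Real.log (β x.1.1) + q / 2 * Real.log (b x.1.1 x.1.2)) : ℝ) : ℂ) * z) := by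
    intro z
    rw [form_eq_sum]
    refine Finset.sum_congr rfl fun x _ => ?_
    have : exp (((p * Real.log (a x.2.1 x.2.2) + p * Real.log (β x.1.1) : ℝ) : ℂ) +
          ((-(p / 2) * Real.log (a x.2.1 x.2.2) + (-(p / 2) * Real.log (β x.1.1)
            - q / 2 * Real.log (β x.1.1) + q / 2 * Real.log (b x.1.1 x.1.2)) : ℝ) : ℂ) * z) =
        aa z x.2.1 x.2.2 * bb z x.1.1 x.1.2 := by
      simp only [aa, bb]
      rw [← Complex.exp_add]
      congr 1
      push_cast
      ring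
    rw [this]
    ring
  have hna : ∀ z j i, ‖aa z j i‖ = a j i ^ (p - p / 2 * z.re) := by
    intro z j i
    simp only [aa]
    rw [Complex.norm_exp, Real.rpow_def_of_pos (ha j i)]
    congr 1
    simp
    ring
  have hnb : ∀ z l i, ‖bb z l i‖ = Real.exp (p * Real.log (β l) + (-(p / 2) * Real.log (β l)
      - q / 2 * Real.log (β l) + q / 2 * Real.log (b l i)) * z.re) := by
    intro z l i
    simp only [bb]
    rw [Complex.norm_exp]
    congr 1
    simp
  have key := expsum (Finset.univ : Finset ((Σ l, ι' l) × (Σ j, ι j)))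
    (fun x => (T x.1.1 x.2.1 : ℂ) * ⟪t' x.1.1 x.1.2, t x.2.1 x.2.2⟫_ℂ)
    (fun x => p * Real.log (a x.2.1 x.2.2) + p * Real.log (β x.1.1))
    (fun x => -(p / 2) * Real.log (a x.2.1 x.2.2) + (-(p / 2) * Real.log (β x.1.1)
            - q / 2 * Real.log (β x.1.1) + q / 2 * Real.log (b x.1.1 x.1.2)))
    (A := X * Y) (B := Real.sqrt N * (Real.sqrt X * Real.sqrt Y)) (θ := 2 / q)
    (by positivity) (by
      have : 2 / q = 2 * (1 / q) := by ring
      rw [this, hq']; linarith)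
    (fun z hz => by
      rw [← hform z]
      have h := form_bound_one T t t' hT1 h3 (aa z) (bb z) (fun l => β l ^ p)
        (fun l => by rw [hβp]; exact Real.rpow_nonneg (hSnn l) _) (fun l i' => by
          rw [hnb, hz, Real.rpow_def_of_pos (hβpos l i')]
          refine le_of_eq ?_
          congr 1
          ring)
      refine h.trans (le_of_eq ?_)
      congr 1
      · refine Finset.sum_congr rfl fun j _ => Finset.sum_congr rfl fun i _ => ?_
        rw [hna, hz]
        congr 1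
        ring
      · exact Finset.sum_congr rfl fun l _ => hβp l)
    (fun z hz => by
      rw [← hform z]
      have h := form_bound_two T t t' hN hT2 ht ht' (aa z) (bb z)
      refine h.trans (le_of_eq ?_)
      have e1 : ∑ j, ∑ i, ‖aa z j i‖ ^ 2 = X := by
        refine Finset.sum_congr rfl fun j _ => Finset.sum_congr rfl fun i _ => ?_
        rw [hna, hz, ← Real.rpow_natCast, ← Real.rpow_mul (ha j i).le]
        congr 1
        push_cast
        ring
      have e2 : ∑ l, ∑ i', ‖bb z l i'‖ ^ 2 = Y := by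
        refine Finset.sum_congr rfl fun l _ => ?_
        rcases isEmpty_or_nonempty (ι' l) with he | ⟨⟨i0⟩⟩
        · simp only [Finset.univ_eq_empty, Finset.sum_empty]
          rw [Real.zero_rpow (by positivity)]
        · have hβl := hβpos l i0
          have : ∀ i', ‖bb z l i'‖ ^ 2 = β l ^ (p - q) * b l i' ^ q := by
            intro i'
            rw [hnb, hz, Real.rpow_def_of_pos hβl, Real.rpow_def_of_pos (hb l i'),
              ← Real.exp_add, ← Real.exp_nat_mul]
            congr 1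
            push_cast
            ring
          simp only [this]
          rw [← hβp l, ← Finset.mul_sum, ← hβq l, ← Real.rpow_add hβl]
          congr 1
          ring
      rw [e1, e2])
  rw [← hform] at key
  have hθ : ((2 / q : ℝ) : ℂ) = ((2 / q : ℝ) : ℂ) := rfl
  have ea : aa ((2 / q : ℝ) : ℂ) = fun j i => (a j i : ℂ) := by
    funext j i
    simp only [aa]
    rw [← Complex.ofReal_mul, ← Complex.ofReal_add, ← Complex.ofReal_exp]
    congr 1
    have : p * Real.log (a j i) + -(p / 2) * Real.log (a j i) * (2 / q) =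
        (p * (1 - 1 / q)) * Real.log (a j i) := by ring
    rw [this, hpq2, one_mul, Real.exp_log (ha j i)]
  have eb : bb ((2 / q : ℝ) : ℂ) = fun l i => (b l i : ℂ) := by
    funext l i
    simp only [bb]
    rw [← Complex.ofReal_mul, ← Complex.ofReal_add, ← Complex.ofReal_exp]
    congr 1
    have : p * Real.log (β l) + (-(p / 2) * Real.log (β l) - q / 2 * Real.log (β l)
      + q / 2 * Real.log (b l i)) * (2 / q) =
        (p * (1 - 1 / q) - q * (1 / q)) * Real.log (β l) + q * (1 / q) * Real.log (b l i) := by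
      ring
    rw [this, hpq2, mul_one_div_cancel hqne, one_mul]
    simp [Real.exp_log (hb l i)]
  rw [ea, eb] at key
  refine key.trans (le_of_eq ?_)
  have hXY : 0 ≤ X * Y := mul_nonneg hX0 hY0
  rw [Real.sqrt_eq_rpow, ← Real.sqrt_mul hX0, Real.sqrt_eq_rpow,
    Real.mul_rpow (Real.rpow_nonneg hN _) (Real.rpow_nonneg hXY _),
    ← Real.rpow_mul hN, ← Real.rpow_mul hXY]
  have e1 : 1 / 2 * (2 / q) = 1 / q := by field_simp
  rw [e1]
  have e2 : 1 / p = (1 - 2 / q) + 1 / q := by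
    have : 2 / q = 2 * (1 / q) := by ring
    rw [this]; linarith
  rw [e2, Real.rpow_add_of_nonneg hXY (by
    have : 2 / q = 2 * (1 / q) := by ring
    rw [this, hq']; linarith) (by positivity)]
  ring

end Pool.Agent.N678.CL
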