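import Pool.Agent.N678.CL.Enn

set_option autoImplicit false
open scoped InnerProductSpace ENNReal
open Pool.Agent.Helper526.Sch Filter Topology

namespace Pool.Agent.N678.CL

universe u v

/-- the matrix of `(A_j) ↦ (∑ A_j, A_j - A_k (j < k))` -/
def TT (n : ℕ) : Option (Fin n × Fin n) → Fin n → ℝ
  | none, _ => 1
  | some x, j => if x.1 < x.2 then (if j = x.1 then 1 else 0) - (if j = x.2 then 1 else 0) else 0

theorem TT_le (n : ℕ) (l : Option (Fin n × Fin n)) (j : Fin n) : |TT n l j| ≤ 1 := by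
  cases l with
  | none => simp [TT]
  | some x =>
    simp only [TT]
    split_ifs <;> norm_num

theorem sum_lt {n : ℕ} (f : Fin n → Fin n → ℝ) (hs : ∀ a b, f a b = f b a) (h0 : ∀ a, f a a = 0) :
    ∑ a, ∑ b, (if a < b then f a b else 0) = (∑ a, ∑ b, f a b) / 2 := by
  have e1 : ∀ a b, f a b = (if a < b then f a b else 0) + (if b < a then f b a else 0) := by
    intro a b
    rcases lt_trichotomy a b with h | h | h
    · rw [if_pos h, if_neg h.not_gt, add_zero]
    · subst h
      simp [h0]
    · rw [if_neg h.not_gt, if_pos h, zero_add, hs a b]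
  have e2 : ∑ a, ∑ b, f a b = ∑ a, ∑ b, (if a < b then f a b else 0) +
      ∑ a, ∑ b, (if b < a then f b a else 0) := by
    rw [← Finset.sum_add_distrib]
    refine Finset.sum_congr rfl fun a _ => ?_
    rw [← Finset.sum_add_distrib]
    exact Finset.sum_congr rfl fun b _ => e1 a b
  rw [Finset.sum_comm (f := fun a b => if b < a then f b a else 0)] at e2
  linarith

theorem TT_orth (n : ℕ) (j k : Fin n) :
    ∑ l, TT n l j * TT n l k = if j = k then (n : ℝ) else 0 := by
  rw [Fintype.sum_option, Fintype.sum_prod_type]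
  have e1 : ∀ a b : Fin n, TT n (some (a, b)) j * TT n (some (a, b)) k =
      if a < b then ((if j = a then (1 : ℝ) else 0) - (if j = b then 1 else 0)) *
        ((if k = a then (1 : ℝ) else 0) - (if k = b then 1 else 0)) else 0 := by
    intro a b
    simp only [TT]
    split_ifs <;> simp
  simp only [e1]
  rw [sum_lt (fun a b => ((if j = a then (1 : ℝ) else 0) - (if j = b then 1 else 0)) *
        ((if k = a then (1 : ℝ) else 0) - (if k = b then 1 else 0))) (fun a b => by ring)
        (fun a => by ring)]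
  have e2 : ∑ a : Fin n, ∑ b : Fin n, ((if j = a then (1 : ℝ) else 0) - (if j = b then 1 else 0)) *
        ((if k = a then (1 : ℝ) else 0) - (if k = b then 1 else 0)) =
      2 * (if j = k then (n : ℝ) else 0) - 2 := by
    have e3 : ∀ a b : Fin n, ((if j = a then (1 : ℝ) else 0) - (if j = b then 1 else 0)) *
        ((if k = a then (1 : ℝ) else 0) - (if k = b then 1 else 0)) =
        (if j = a then (if k = a then (1 : ℝ) else 0) else 0) -
        (if j = a then (if k = b then (1 : ℝ) else 0) else 0) -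
        (if j = b then (if k = a then (1 : ℝ) else 0) else 0) +
        (if j = b then (if k = b then (1 : ℝ) else 0) else 0) := by
      intro a b
      split_ifs <;> ring
    simp only [e3, Finset.sum_add_distrib, Finset.sum_sub_distrib, Finset.sum_const,
      Finset.sum_ite_eq, Finset.mem_univ, if_true, Finset.card_univ, Fintype.card_fin]
    by_cases h : j = k
    · subst h
      simp [Finset.sum_ite_eq]
      ring
    · simp [h, Ne.symm h, Finset.sum_ite_eq]
      try norm_num
  rw [e2]
  simp only [TT]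
  ring

variable {H : Type u} [NormedAddCommGroup H] [InnerProductSpace ℂ H] [CompleteSpace H]

theorem tr_zero {ι : Type v} (b : HilbertBasis ι ℂ H) {p : ℝ} (hp : 0 < p) :
    trAbsPow b p (0 : H →L[ℂ] H) = 0 := by
  obtain ⟨s, hs⟩ := exists_SV.{u, v} (X := (0 : H →L[ℂ] H))
    (by simpa using (isCompactOperator_zero : IsCompactOperator (0 : H → H)))
  rw [hs p hp b]
  have : IsEmpty s.κ := ⟨fun k => by
    have h1 := s.ap k
    have h2 := s.oy.1 k
    have h3 := s.pos k
    have h4 : ‖(s.σ k : ℂ) • s.y k‖ = 0 := by rw [← h1]; simp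
    rw [norm_smul, h2, mul_one, Complex.norm_real, Real.norm_of_nonneg h3.le] at h4
    exact h3.ne' h4⟩
  simp

/-- the operators `∑ A_j` and `A_j - A_k` -/
def CC {n : ℕ} (A : Fin n → H →L[ℂ] H) : Option (Fin n × Fin n) → H →L[ℂ] H
  | none => ∑ j, A j
  | some x => if x.1 < x.2 then A x.1 - A x.2 else 0

theorem CC_eq {n : ℕ} (A : Fin n → H →L[ℂ] H) (l : Option (Fin n × Fin n)) :
    CC A l = ∑ j, (TT n l j : ℂ) • A j := by
  cases l with
  | none => simp [CC, TT]
  | some x =>
    simp only [CC, TT]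
    split_ifs with h
    · push_cast
      simp only [sub_smul, ite_smul, one_smul, zero_smul]
      have : ∀ j : Fin n, (((if j = x.1 then (1 : ℝ) else 0 : ℝ) : ℂ)) • A j =
          if j = x.1 then A j else 0 := by
        intro j; split_ifs <;> simp
      have h2 : ∀ j : Fin n, (((if j = x.2 then (1 : ℝ) else 0 : ℝ) : ℂ)) • A j =
          if j = x.2 then A j else 0 := by
        intro j; split_ifs <;> simp
      simp [Finset.sum_sub_distrib, this, h2]
    · simp

theorem sum_CC {n : ℕ} (A : Fin n → H →L[ℂ] H) {ι : Type v} (b : HilbertBasis ι ℂ H) {p r : ℝ}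
    (hp : 0 < p) (hr : 0 < r) :
    ∑ l, trAbsPow b p (CC A l) ^ r = trAbsPow b p (∑ j, A j) ^ r +
      ∑ j, ∑ k ∈ Finset.Ioi j, trAbsPow b p (A j - A k) ^ r := by
  rw [Fintype.sum_option, Fintype.sum_prod_type]
  congr 1
  refine Finset.sum_congr rfl fun j _ => ?_
  have e1 : ∀ k : Fin n, trAbsPow b p (CC A (some (j, k))) ^ r =
      if j < k then trAbsPow b p (A j - A k) ^ r else 0 := by
    intro k
    simp only [CC]
    split_ifs with h
    · rfl
    · rw [tr_zero b hp, ENNReal.zero_rpow_of_pos hr]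
  simp only [e1]
  rw [← Finset.sum_filter]
  congr 1
  ext k
  simp

/-- **Clarkson inequality for `n`-tuples, `1 < p ≤ 2`** -/
theorem clarkson_two {n : ℕ} (A : Fin n → H →L[ℂ] H) (hA : ∀ j, IsCompactOperator (A j))
    {ι : Type v} (b : HilbertBasis ι ℂ H) {p q : ℝ} (hp1 : 1 < p) (hp2 : p ≤ 2)
    (hpq : 1 / p + 1 / q = 1) :
    trAbsPow b p (∑ j, A j) ^ (q / p) +
      ∑ j, ∑ k ∈ Finset.Ioi j, trAbsPow b p (A j - A k) ^ (q / p) ≤
      (n : ℝ≥0∞) * (∑ j, trAbsPow b p (A j)) ^ (q / p) := by
  rcases Nat.eq_zero_or_pos n with h0 | hn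
  · subst h0
    have hp0 : 0 < p := by linarith
    have hq' : 1 / q = 1 - 1 / p := by linarith
    have hp' : 1 / p < 1 := by rw [div_lt_one hp0]; exact hp1
    have hq0 : 0 < q := by
      have : 0 < 1 / q := by rw [hq']; linarith
      exact one_div_pos.1 this
    simp [tr_zero b hp0, ENNReal.zero_rpow_of_pos (div_pos hq0 hp0)]
  have hp0 : 0 < p := by linarith
  have hq' : 1 / q = 1 - 1 / p := by linarith
  have hp' : 1 / p < 1 := by rw [div_lt_one hp0]; exact hp1
  have hq0 : 0 < q := by
    have : 0 < 1 / q := by rw [hq']; linarith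
    exact one_div_pos.1 this
  have h := q2_enn (TT n) (N := (n : ℝ)) (by exact_mod_cast hn) (TT_le n) (TT_orth n) hA
    (CC_eq A) b hp1 hp2 hpq
  rw [sum_CC A b hp0 (div_pos hq0 hp0)] at h
  simpa using h

/-- **Clarkson inequality for `n`-tuples, `2 ≤ p`** -/
theorem clarkson_one {n : ℕ} (A : Fin n → H →L[ℂ] H) (hA : ∀ j, IsCompactOperator (A j))
    {ι : Type v} (b : HilbertBasis ι ℂ H) {p q : ℝ} (hp2 : 2 ≤ p)
    (hpq : 1 / p + 1 / q = 1) :
    (n : ℝ≥0∞) * (∑ j, trAbsPow b p (A j)) ^ (q / p) ≤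
    trAbsPow b p (∑ j, A j) ^ (q / p) +
      ∑ j, ∑ k ∈ Finset.Ioi j, trAbsPow b p (A j - A k) ^ (q / p) := by
  rcases Nat.eq_zero_or_pos n with h0 | hn
  · subst h0
    simp
  have hp0 : 0 < p := by linarith
  have hq' : 1 / q = 1 - 1 / p := by linarith
  have hp' : 1 / p < 1 := by rw [div_lt_one hp0]; linarith
  have hq0 : 0 < q := by
    have : 0 < 1 / q := by rw [hq']; linarith
    exact one_div_pos.1 this
  have h := q1_enn (TT n) (N := (n : ℝ)) (by exact_mod_cast hn) (TT_le n) (TT_orth n) hA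
    (CC_eq A) b hp2 hpq
  rw [sum_CC A b hp0 (div_pos hq0 hp0)] at h
  simpa using h

end Pool.Agent.N678.CL
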