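import Pool.Agent.N678.CL.Fin

set_option autoImplicit false
open scoped InnerProductSpace ENNReal
open Pool.Agent.Helper526.Sch Filter Topology

namespace Pool.Agent.N678.CL

universe u v

variable {H : Type u} [NormedAddCommGroup H] [InnerProductSpace ℂ H] [CompleteSpace H]

theorem cancel_pow {N X Y p q : ℝ} (hN : 0 ≤ N) (hX : 0 ≤ X) (hY : 0 < Y) (hp : 0 < p) (hq : 0 < q)
    (hpq : 1 / p + 1 / q = 1) (h : Y ≤ N ^ (1 / q) * (X * Y) ^ (1 / p)) : Y ≤ N * X ^ (q / p) := by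
  have h1 := Real.rpow_le_rpow hY.le h hq.le
  rw [Real.mul_rpow (Real.rpow_nonneg hN _) (Real.rpow_nonneg (mul_nonneg hX hY.le) _),
    ← Real.rpow_mul hN, ← Real.rpow_mul (mul_nonneg hX hY.le)] at h1
  have e1 : 1 / q * q = 1 := by field_simp
  have e2 : 1 / p * q = q / p := by ring
  have e3 : q = 1 + q / p := by
    have : q * (1 / p + 1 / q) = q := by rw [hpq, mul_one]
    have h2 : q * (1 / p + 1 / q) = q / p + 1 := by field_simp
    linarith
  rw [e1, e2, Real.rpow_one, Real.mul_rpow hX hY.le] at h1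
  have e4 : Y ^ q = Y * Y ^ (q / p) := by
    conv_lhs => rw [e3]
    rw [Real.rpow_add hY, Real.rpow_one]
  rw [e4] at h1
  have hpos : 0 < Y ^ (q / p) := Real.rpow_pos_of_pos hY _
  have h2 : Y * Y ^ (q / p) ≤ (N * X ^ (q / p)) * Y ^ (q / p) := by linarith [h1]
  exact le_of_mul_le_mul_right h2 hpos

theorem hasSum_tendsto {κ : Type*} {f : κ → ℂ} {a : ℂ} (h : HasSum f a) :
    Tendsto (fun s : Finset κ => ∑ k ∈ s, f k) atTop (𝓝 a) := h

theorem tend_pi {J : Type*} {κ : J → Type*} (j : J) :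
    Tendsto (fun S : ∀ j, Finset (κ j) => S j)
      (Filter.pi fun j => (atTop : Filter (Finset (κ j)))) atTop :=
  Filter.tendsto_eval_pi (fun j => (atTop : Filter (Finset (κ j)))) j

theorem hasSum_pi {J : Type*} {κ : J → Type*} (j : J) {f : κ j → ℂ} {a : ℂ} (h : HasSum f a) :
    Tendsto (fun S : ∀ j, Finset (κ j) => ∑ k ∈ S j, f k)
      (Filter.pi fun j => (atTop : Filter (Finset (κ j)))) (𝓝 a) :=
  (hasSum_tendsto h).comp (tend_pi j)

section

variable {J L : Type*} [Fintype J] [Fintype L] [DecidableEq J] (T : L → J → ℝ) {N : ℝ}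
    (hN : 0 < N) (hT1 : ∀ l j, |T l j| ≤ 1)
    (hT : ∀ j k, ∑ l, T l j * T l k = if j = k then N else 0)
    {A : J → H →L[ℂ] H} {C : L → H →L[ℂ] H} (hC : ∀ l, C l = ∑ j, (T l j : ℂ) • A j)
    (sA : ∀ j, SV (A j)) (sC : ∀ l, SV (C l))

include hN hT1 hT hC in
theorem q2_fin {p q : ℝ} (hp1 : 1 < p) (hp2 : p ≤ 2) (hpq : 1 / p + 1 / q = 1) {X : ℝ}
    (hX0 : 0 ≤ X)
    (hX : ∀ S : ∀ j, Finset (sA j).κ, ∑ j, ∑ k ∈ S j, (sA j).σ k ^ p ≤ X)
    (S' : ∀ l, Finset (sC l).κ) :
    ∑ l, (∑ k ∈ S' l, (sC l).σ k ^ p) ^ (q / p) ≤ N * X ^ (q / p) := by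
  classical
  have hp0 : 0 < p := by linarith
  have hq' : 1 / q = 1 - 1 / p := by linarith
  have hp' : 1 / p < 1 := by rw [div_lt_one hp0]; exact hp1
  have hq0 : 0 < q := by
    have : 0 < 1 / q := by rw [hq']; linarith
    exact one_div_pos.1 this
  have hpq1 : (p - 1) * q = p := by
    have : p * q * (1 / p + 1 / q) = p * q := by rw [hpq, mul_one]
    have h2 : p * q * (1 / p + 1 / q) = q + p := by field_simp
    linarith
  set s : L → ℝ := fun l => ∑ k ∈ S' l, (sC l).σ k ^ p with hs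
  have hs0 : ∀ l, 0 ≤ s l := fun l => Finset.sum_nonneg fun k _ =>
    Real.rpow_nonneg ((sC l).pos k).le _
  have hspos : ∀ l, ∀ k ∈ S' l, 0 < s l := fun l k hk =>
    Finset.sum_pos (fun i _ => Real.rpow_pos_of_pos ((sC l).pos i) _) ⟨k, hk⟩
  set Y : ℝ := ∑ l, s l ^ (q / p) with hY
  have hY0 : 0 ≤ Y := Finset.sum_nonneg fun l _ => Real.rpow_nonneg (hs0 l) _
  rcases hY0.eq_or_lt with h0 | hYpos
  · rw [← h0]
    positivity
  refine cancel_pow hN.le hX0 hYpos hp0 hq0 hpq ?_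
  set c : L → ℝ := fun l => s l ^ (q / p - 1) with hc
  set b : ∀ l, (sC l).κ → ℝ := fun l k => c l * (sC l).σ k ^ (p - 1) with hb
  have hbpos : ∀ l, ∀ k ∈ S' l, 0 < b l k := fun l k hk =>
    mul_pos (Real.rpow_pos_of_pos (hspos l k hk) _) (Real.rpow_pos_of_pos ((sC l).pos k) _)
  have hcs : ∀ l, c l * s l = s l ^ (q / p) := by
    intro l
    rcases (hs0 l).eq_or_lt with h | h
    · rw [← h, mul_zero, Real.zero_rpow (by positivity)]
    · rw [hc]
      dsimp only
      conv_lhs => rw [← Real.rpow_one (s l), ← Real.rpow_mul h.le, ← Real.rpow_add h]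
      congr 1
      ring
  have hbq : ∀ l, (∑ k ∈ S' l, b l k ^ q) ^ (p / q) = s l ^ (q / p) := by
    intro l
    have e1 : ∑ k ∈ S' l, b l k ^ q = c l ^ q * s l := by
      rw [hs]
      dsimp only
      rw [Finset.mul_sum]
      refine Finset.sum_congr rfl fun k hk => ?_
      rw [hb]
      dsimp only
      rw [Real.mul_rpow (Real.rpow_nonneg (hs0 l) _) (Real.rpow_nonneg ((sC l).pos k).le _),
        ← Real.rpow_mul ((sC l).pos k).le, hpq1]
    rw [e1]
    rcases (hs0 l).eq_or_lt with h | h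
    · rw [← h, mul_zero, Real.zero_rpow (by positivity), Real.zero_rpow (by positivity)]
    · rw [hc]
      dsimp only
      conv_lhs => rw [← Real.rpow_mul h.le]
      have e2 : s l ^ ((q / p - 1) * q) * s l = s l ^ ((q / p - 1) * q + 1) := by
        rw [Real.rpow_add h, Real.rpow_one]
      rw [e2, ← Real.rpow_mul h.le]
      congr 1
      have e3 : q / p = q - 1 := by
        have : q * (1 / p + 1 / q) = q := by rw [hpq, mul_one]
        have h2 : q * (1 / p + 1 / q) = q / p + 1 := by field_simp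
        linarith
      have e4 : ((q / p - 1) * q + 1) * (p / q) = (q / p) * p - p + p / q := by field_simp
      rw [e4]
      have e5 : q / p * p = q := by field_simp
      have e6 : p / q = p - 1 := by
        have : p * (1 / p + 1 / q) = p := by rw [hpq, mul_one]
        have h2 : p * (1 / p + 1 / q) = 1 + p / q := by field_simp
        linarith
      rw [e5, e6, e3]
      ring
  -- the limit
  have hlim : Tendsto (fun S : ∀ j, Finset (sA j).κ => ∑ l, ∑ k' ∈ S' l, ∑ j, ∑ k ∈ S j,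
      (T l j : ℂ) * ((sA j).σ k : ℂ) * (b l k' : ℂ) *
        (⟪(sC l).y k', (sA j).y k⟫_ℂ * ⟪(sA j).v k, (sC l).v k'⟫_ℂ))
      (Filter.pi fun j => (atTop : Filter (Finset (sA j).κ))) (𝓝 (∑ l, ∑ k' ∈ S' l, ∑ j,
        ((T l j : ℂ) * (b l k' : ℂ)) * ⟪(sC l).y k', A j ((sC l).v k')⟫_ℂ)) := by
    refine tendsto_finsetSum _ fun l _ => tendsto_finsetSum _ fun k' _ =>
      tendsto_finsetSum _ fun j _ => ?_
    have h1 := ((sA j).hs ((sC l).v k') ((sC l).y k')).mul_left ((T l j : ℂ) * (b l k' : ℂ))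
    have h2 := hasSum_pi (κ := fun j => (sA j).κ) j h1
    refine h2.congr fun S => ?_
    refine Finset.sum_congr rfl fun k _ => ?_
    ring
  have hval : ∑ l, ∑ k' ∈ S' l, ∑ j,
        ((T l j : ℂ) * (b l k' : ℂ)) * ⟪(sC l).y k', A j ((sC l).v k')⟫_ℂ = ((Y : ℝ) : ℂ) := by
    rw [hY]
    push_cast
    refine Finset.sum_congr rfl fun l _ => ?_
    rw [← hcs l, hs]
    dsimp only
    rw [Finset.mul_sum]
    push_cast
    refine Finset.sum_congr rfl fun k _ => ?_
    have e1 : ∑ j, ((T l j : ℂ) * (b l k : ℂ)) * ⟪(sC l).y k, A j ((sC l).v k)⟫_ℂ =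
        (b l k : ℂ) * ⟪(sC l).y k, C l ((sC l).v k)⟫_ℂ := by
      have hCl : C l ((sC l).v k) = ∑ j, (T l j : ℂ) • A j ((sC l).v k) := by
        have := congrArg (fun F : H →L[ℂ] H => F ((sC l).v k)) (hC l)
        simpa using this
      rw [hCl, inner_sum, Finset.mul_sum]
      refine Finset.sum_congr rfl fun j _ => ?_
      rw [inner_smul_right]
      ring
    rw [e1, (sC l).ap k, inner_smul_right, orthonormal_iff_ite.1 (sC l).oy k k]
    simp only [if_true, mul_one]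
    rw [hb]
    dsimp only
    rw [← Complex.ofReal_mul, ← Complex.ofReal_mul]
    congr 1
    rw [mul_assoc]
    congr 1
    have : (sC l).σ k ^ p = (sC l).σ k ^ (p - 1 + 1) := by congr 1; ring
    rw [this, Real.rpow_add ((sC l).pos k), Real.rpow_one]
  rw [hval] at hlim
  have hb2 : ‖((Y : ℝ) : ℂ)‖ ≤ N ^ (1 / q) * (X * Y) ^ (1 / p) := by
    refine le_of_tendsto' hlim.norm fun S => ?_
    refine (fin_bound T hN.le hT1 hT (fun j => (sA j).v) (fun j => (sA j).y) (fun l => (sC l).v)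
      (fun l => (sC l).y) (fun j => (sA j).ov) (fun j => (sA j).oy) (fun l => (sC l).ov)
      (fun l => (sC l).oy) S S' (fun j => (sA j).σ) (fun j k _ => (sA j).pos k) b hbpos
      hp1 hp2 hpq).trans ?_
    refine mul_le_mul_of_nonneg_left ?_ (Real.rpow_nonneg hN.le _)
    have e1 : ∑ l, (∑ k ∈ S' l, b l k ^ q) ^ (p / q) = Y :=
      Finset.sum_congr rfl fun l _ => hbq l
    rw [e1]
    refine Real.rpow_le_rpow (mul_nonneg (Finset.sum_nonneg fun j _ => Finset.sum_nonneg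
      fun k _ => Real.rpow_nonneg ((sA j).pos k).le _) hY0)
      (mul_le_mul_of_nonneg_right (hX S) hY0) (by positivity)
  rw [Complex.norm_real, Real.norm_of_nonneg hY0] at hb2
  exact hb2

include hN hT1 hT hC in
theorem q1_fin {p q : ℝ} (hp2 : 2 ≤ p) (hpq : 1 / p + 1 / q = 1) {R : ℝ}
    (hR : ∀ S' : ∀ l, Finset (sC l).κ, ∑ l, (∑ k ∈ S' l, (sC l).σ k ^ p) ^ (q / p) ≤ R)
    (S : ∀ j, Finset (sA j).κ) :
    N * (∑ j, ∑ k ∈ S j, (sA j).σ k ^ p) ^ (q / p) ≤ R := by
  classical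
  have hp0 : 0 < p := by linarith
  have hq' : 1 / q = 1 - 1 / p := by linarith
  have hp' : 1 / p ≤ 1 / 2 := one_div_le_one_div_of_le (by norm_num) hp2
  have hp'' : 0 < 1 / p := by positivity
  have hq0 : 0 < q := by
    have : 0 < 1 / q := by rw [hq']; linarith
    exact one_div_pos.1 this
  have hq1 : 1 < q := by
    rw [← one_div_lt_one_div hq0 one_pos] at *
    rw [hq']; norm_num; exact hp0
  have hq2 : q ≤ 2 := by
    have h1 : 1 / 2 ≤ 1 / q := by rw [hq']; linarith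
    exact (one_div_le_one_div (by norm_num) hq0).1 h1
  have hpq1 : (p - 1) * q = p := by
    have : p * q * (1 / p + 1 / q) = p * q := by rw [hpq, mul_one]
    have h2 : p * q * (1 / p + 1 / q) = q + p := by field_simp
    linarith
  have hR0 : 0 ≤ R := le_trans (Finset.sum_nonneg fun l _ => Real.rpow_nonneg (Finset.sum_nonneg
    fun k _ => Real.rpow_nonneg ((sC l).pos k).le _) _) (hR fun _ => ∅)
  set X : ℝ := ∑ j, ∑ k ∈ S j, (sA j).σ k ^ p with hX
  have hX0 : 0 ≤ X := Finset.sum_nonneg fun j _ => Finset.sum_nonneg fun k _ =>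
    Real.rpow_nonneg ((sA j).pos k).le _
  rcases hX0.eq_or_lt with h0 | hXpos
  · rw [← h0, Real.zero_rpow (by positivity), mul_zero]
    exact hR0
  set d : ∀ j, (sA j).κ → ℝ := fun j k => (sA j).σ k ^ (p - 1) with hd
  have hdpos : ∀ j, ∀ k ∈ S j, 0 < d j k := fun j k _ => Real.rpow_pos_of_pos ((sA j).pos k) _
  have hdq : ∑ j, ∑ k ∈ S j, d j k ^ q = X := by
    refine Finset.sum_congr rfl fun j _ => Finset.sum_congr rfl fun k _ => ?_
    rw [hd]
    dsimp only
    rw [← Real.rpow_mul ((sA j).pos k).le, hpq1]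
  have hTC : ∀ j, ∑ l, (T l j : ℂ) • C l = (N : ℂ) • A j := by
    intro j
    simp only [hC, Finset.smul_sum, smul_smul]
    rw [Finset.sum_comm]
    have e2 : ∀ k, ∑ l, ((T l j : ℂ) * (T l k : ℂ)) • A k =
        if j = k then (N : ℂ) • A k else 0 := by
      intro k
      rw [← Finset.sum_smul]
      have : ∑ l, (T l j : ℂ) * (T l k : ℂ) = ((∑ l, T l j * T l k : ℝ) : ℂ) := by push_cast; rfl
      rw [this, hT j k]
      split_ifs <;> simp
    simp only [e2]
    rw [Finset.sum_ite_eq]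
    simp
  -- the limit
  have hlim : Tendsto (fun S' : ∀ l, Finset (sC l).κ => ∑ l, ∑ k' ∈ S' l, ∑ j, ∑ k ∈ S j,
      (T l j : ℂ) * (d j k : ℂ) * ((sC l).σ k' : ℂ) *
        (⟪(sC l).y k', (sA j).y k⟫_ℂ * ⟪(sA j).v k, (sC l).v k'⟫_ℂ))
      (Filter.pi fun l => (atTop : Filter (Finset (sC l).κ))) (𝓝 (∑ l, ∑ j, ∑ k ∈ S j,
        ((T l j : ℂ) * (d j k : ℂ)) * ⟪C l ((sA j).v k), (sA j).y k⟫_ℂ)) := by
    refine tendsto_finsetSum _ fun l _ => ?_
    have h0 : Tendsto (fun S' : ∀ l, Finset (sC l).κ => ∑ j, ∑ k ∈ S j, ∑ k' ∈ S' l,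
      (T l j : ℂ) * (d j k : ℂ) * ((sC l).σ k' : ℂ) *
        (⟪(sC l).y k', (sA j).y k⟫_ℂ * ⟪(sA j).v k, (sC l).v k'⟫_ℂ))
      (Filter.pi fun l => (atTop : Filter (Finset (sC l).κ))) (𝓝 (∑ j, ∑ k ∈ S j,
        ((T l j : ℂ) * (d j k : ℂ)) * ⟪C l ((sA j).v k), (sA j).y k⟫_ℂ)) := by
      refine tendsto_finsetSum _ fun j _ => tendsto_finsetSum _ fun k _ => ?_
      have h1 := ((((sC l).hs ((sA j).v k) ((sA j).y k)).map (starRingEnd ℂ)
        Complex.continuous_conj)).mul_left ((T l j : ℂ) * (d j k : ℂ))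
      rw [inner_conj_symm] at h1
      have h2 := hasSum_pi (κ := fun l => (sC l).κ) l h1
      refine h2.congr fun S' => ?_
      refine Finset.sum_congr rfl fun k' _ => ?_
      rw [Function.comp_apply, map_mul, map_mul, inner_conj_symm, inner_conj_symm,
        Complex.conj_ofReal]
      ring
    refine h0.congr fun S' => ?_
    rw [Finset.sum_comm]
    refine Finset.sum_congr rfl fun j _ => ?_
    rw [Finset.sum_comm]
  have hval : ∑ l, ∑ j, ∑ k ∈ S j,
        ((T l j : ℂ) * (d j k : ℂ)) * ⟪C l ((sA j).v k), (sA j).y k⟫_ℂ =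
        ((N * X : ℝ) : ℂ) := by
    rw [Finset.sum_comm, hX]
    push_cast
    rw [Finset.mul_sum]
    refine Finset.sum_congr rfl fun j _ => ?_
    rw [Finset.sum_comm, Finset.mul_sum]
    refine Finset.sum_congr rfl fun k _ => ?_
    have e1 : ∑ l, ((T l j : ℂ) * (d j k : ℂ)) * ⟪C l ((sA j).v k), (sA j).y k⟫_ℂ =
        (d j k : ℂ) * ⟪(∑ l, (T l j : ℂ) • C l) ((sA j).v k), (sA j).y k⟫_ℂ := by
      simp only [ContinuousLinearMap.sum_apply, ContinuousLinearMap.smul_apply]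
      rw [sum_inner, Finset.mul_sum]
      refine Finset.sum_congr rfl fun l _ => ?_
      rw [inner_smul_left, Complex.conj_ofReal]
      ring
    rw [e1, hTC j, ContinuousLinearMap.smul_apply, (sA j).ap k, inner_smul_left, inner_smul_left,
      orthonormal_iff_ite.1 (sA j).oy k k]
    simp only [if_true, mul_one, Complex.conj_ofReal]
    rw [hd]
    dsimp only
    rw [← Complex.ofReal_mul, ← Complex.ofReal_mul, ← Complex.ofReal_mul]
    congr 1
    have : (sA j).σ k ^ p = (sA j).σ k ^ (p - 1 + 1) := by congr 1; ring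
    rw [this, Real.rpow_add ((sA j).pos k), Real.rpow_one]
    ring
  rw [hval] at hlim
  have hb2 : ‖((N * X : ℝ) : ℂ)‖ ≤ N ^ (1 / p) * (X * R) ^ (1 / q) := by
    refine le_of_tendsto' hlim.norm fun S' => ?_
    refine (fin_bound T hN.le hT1 hT (fun j => (sA j).v) (fun j => (sA j).y) (fun l => (sC l).v)
      (fun l => (sC l).y) (fun j => (sA j).ov) (fun j => (sA j).oy) (fun l => (sC l).ov)
      (fun l => (sC l).oy) S S' d hdpos (fun l => (sC l).σ) (fun l k _ => (sC l).pos k)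
      (p := q) (q := p) hq1 hq2 (by rw [add_comm]; exact hpq)).trans ?_
    refine mul_le_mul_of_nonneg_left ?_ (Real.rpow_nonneg hN.le _)
    rw [hdq]
    refine Real.rpow_le_rpow (mul_nonneg hX0 (Finset.sum_nonneg fun l _ => Real.rpow_nonneg
      (Finset.sum_nonneg fun k _ => Real.rpow_nonneg ((sC l).pos k).le _) _))
      (mul_le_mul_of_nonneg_left (hR S') hX0) (by positivity)
  rw [Complex.norm_real, Real.norm_of_nonneg (mul_nonneg hN.le hX0)] at hb2
  -- algebra
  have h1 := Real.rpow_le_rpow (mul_nonneg hN.le hX0) hb2 hq0.le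
  rw [Real.mul_rpow (Real.rpow_nonneg hN.le _) (Real.rpow_nonneg (mul_nonneg hX0 hR0) _),
    ← Real.rpow_mul hN.le, ← Real.rpow_mul (mul_nonneg hX0 hR0)] at h1
  have e1 : 1 / q * q = 1 := by field_simp
  have e2 : 1 / p * q = q / p := by ring
  have e3 : q = 1 + q / p := by
    have : q * (1 / p + 1 / q) = q := by rw [hpq, mul_one]
    have h2 : q * (1 / p + 1 / q) = q / p + 1 := by field_simp
    linarith
  rw [e1, e2, Real.rpow_one, Real.mul_rpow hN.le hX0] at h1
  have e4 : N ^ q = N * N ^ (q / p) := by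
    conv_lhs => rw [e3]
    rw [Real.rpow_add hN, Real.rpow_one]
  have e5 : X ^ q = X * X ^ (q / p) := by
    conv_lhs => rw [e3]
    rw [Real.rpow_add hXpos, Real.rpow_one]
  rw [e4, e5] at h1
  have hpos : 0 < N ^ (q / p) * X := mul_pos (Real.rpow_pos_of_pos hN _) hXpos
  have h2 : (N * X ^ (q / p)) * (N ^ (q / p) * X) ≤ R * (N ^ (q / p) * X) := by
    calc _ = N * N ^ (q / p) * (X * X ^ (q / p)) := by ring
      _ ≤ _ := h1
      _ = _ := by ring
  exact le_of_mul_le_mul_right h2 hpos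

end

end Pool.Agent.N678.CL
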