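import Pool.Agent.N678.CL.Pairs

set_option autoImplicit false
open scoped InnerProductSpace ENNReal
open Pool.Agent.Helper526.Sch Filter Topology

namespace Pool.Agent.N678.CL

universe u v

/-- The Schatten norm `‖X‖_p = (tr |X|^p)^(1/p) ∈ [0, ∞]` of an operator `X` on a Hilbert space with the
Hilbert basis `b`; here `trAbsPow b p X = ∑ᵢ ⟨bᵢ, (X* X)^(p/2) bᵢ⟩`. -/
noncomputable def snorm {H : Type u} [NormedAddCommGroup H] [InnerProductSpace ℂ H]
    [CompleteSpace H] {ι : Type v} (b : HilbertBasis ι ℂ H) (p : ℝ) (X : H →L[ℂ] H) : ℝ≥0∞ :=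
  trAbsPow b p X ^ (1 / p)

/-- The Schatten class `S_p`. -/
def InSchatten {H : Type u} [NormedAddCommGroup H] [InnerProductSpace ℂ H]
    [CompleteSpace H] {ι : Type v} (b : HilbertBasis ι ℂ H) (p : ℝ) (X : H →L[ℂ] H) : Prop :=
  IsCompactOperator X ∧ snorm b p X < ⊤

/-- `L = n (∑_j ‖A_j‖_p^p)^(q/p)` -/
noncomputable def Lside {H : Type u} [NormedAddCommGroup H] [InnerProductSpace ℂ H]
    [CompleteSpace H] {ι : Type v} (b : HilbertBasis ι ℂ H) (p q : ℝ) {n : ℕ}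
    (A : Fin n → H →L[ℂ] H) : ℝ≥0∞ :=
  n * (∑ j, snorm b p (A j) ^ p) ^ (q / p)

/-- `R = ‖∑_j A_j‖_p^q + ∑_{j < k} ‖A_j - A_k‖_p^q` -/
noncomputable def Rside {H : Type u} [NormedAddCommGroup H] [InnerProductSpace ℂ H]
    [CompleteSpace H] {ι : Type v} (b : HilbertBasis ι ℂ H) (p q : ℝ) {n : ℕ}
    (A : Fin n → H →L[ℂ] H) : ℝ≥0∞ :=
  snorm b p (∑ j, A j) ^ q + ∑ j, ∑ k ∈ Finset.Ioi j, snorm b p (A j - A k) ^ q

section

variable {H : Type u} [NormedAddCommGroup H] [InnerProductSpace ℂ H] [CompleteSpace H]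
  {ι : Type v} (b : HilbertBasis ι ℂ H)

theorem snorm_rpow {p : ℝ} (hp : p ≠ 0) (X : H →L[ℂ] H) : snorm b p X ^ p = trAbsPow b p X := by
  unfold snorm
  rw [← ENNReal.rpow_mul, one_div, inv_mul_cancel₀ hp, ENNReal.rpow_one]

theorem snorm_rpow' (p q : ℝ) (X : H →L[ℂ] H) :
    snorm b p X ^ q = trAbsPow b p X ^ (q / p) := by
  unfold snorm
  rw [← ENNReal.rpow_mul]
  congr 1
  ring

theorem Lside_eq {p : ℝ} (hp : p ≠ 0) (q : ℝ) {n : ℕ} (A : Fin n → H →L[ℂ] H) :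
    Lside b p q A = n * (∑ j, trAbsPow b p (A j)) ^ (q / p) := by
  simp only [Lside, snorm_rpow b hp]

theorem Rside_eq (p q : ℝ) {n : ℕ} (A : Fin n → H →L[ℂ] H) :
    Rside b p q A = trAbsPow b p (∑ j, A j) ^ (q / p) +
      ∑ j, ∑ k ∈ Finset.Ioi j, trAbsPow b p (A j - A k) ^ (q / p) := by
  simp only [Rside, snorm_rpow']

end

/-- the standard basis of `ℂ` -/
noncomputable def b0 : HilbertBasis Unit ℂ ℂ := (OrthonormalBasis.singleton Unit ℂ).toHilbertBasis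

theorem tr_scalar {p : ℝ} (hp : 0 < p) (c : ℂ) :
    trAbsPow b0 p (c • (1 : ℂ →L[ℂ] ℂ)) = ENNReal.ofReal (‖c‖ ^ p) := by
  have h : ∀ k, (star (c • (1 : ℂ →L[ℂ] ℂ)) * (c • (1 : ℂ →L[ℂ] ℂ))) (b0 k) =
      (((fun _ => ‖c‖ ^ 2 : Unit → ℝ) k : ℝ) : ℂ) • b0 k := by
    intro k
    have e1 : star (c • (1 : ℂ →L[ℂ] ℂ)) * (c • (1 : ℂ →L[ℂ] ℂ)) =
        (star c * c) • (1 : ℂ →L[ℂ] ℂ) := by
      rw [star_smul, star_one, smul_mul_smul_comm, one_mul]
    rw [e1]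
    have e2 : star c * c = ((‖c‖ ^ 2 : ℝ) : ℂ) := by
      have := Complex.conj_mul' c
      push_cast
      exact this
    rw [e2]
    simp
  rw [trAbsPow_eq b0 b0 h hp]
  rw [tsum_fintype]
  simp only [Finset.univ_unique, Finset.sum_singleton]
  congr 1
  rw [← Real.rpow_natCast, ← Real.rpow_mul (norm_nonneg _)]
  congr 1
  push_cast
  ring

theorem snorm_scalar {p : ℝ} (hp : 0 < p) (c : ℂ) :
    snorm b0 p (c • (1 : ℂ →L[ℂ] ℂ)) = ENNReal.ofReal ‖c‖ := by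
  unfold snorm
  rw [tr_scalar hp, ENNReal.ofReal_rpow_of_nonneg (Real.rpow_nonneg (norm_nonneg _) _)
    (by positivity), ← Real.rpow_mul (norm_nonneg _), mul_one_div_cancel hp.ne', Real.rpow_one]

theorem isCompact_scalar (X : ℂ →L[ℂ] ℂ) : IsCompactOperator X :=
  isCompactOperator_of_locallyCompactSpace_dom X

/-- For `0 < p < 1` (so that `q < 0`) the inequality `R ≤ L` fails. -/
theorem neg_part {n : ℕ} (hn : 2 ≤ n) {p q : ℝ} (hp0 : 0 < p) (hp1 : p < 1)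
    (hpq : 1 / p + 1 / q = 1) : ∃ A : Fin n → (ℂ →L[ℂ] ℂ), (∀ j, InSchatten b0 p (A j)) ∧
      (∀ j k, j < k → A j ≠ A k) ∧ ∑ j, A j ≠ 0 ∧
      Lside b0 p q A < Rside b0 p q A ∧ Rside b0 p q A < ⊤ := by
  classical
  have h1p : 1 < 1 / p := by rw [lt_div_iff₀ hp0]; linarith
  have hq' : 1 / q < 0 := by linarith
  have hq0 : q < 0 := one_div_neg.1 hq'
  have hn1 : (1 : ℝ) < (n : ℝ) + 1 := by
    have : (2 : ℝ) ≤ n := by exact_mod_cast hn
    linarith
  set ε : ℝ := ((n : ℝ) + 1) ^ (1 / q) with hε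
  have hε0 : 0 < ε := Real.rpow_pos_of_pos (by linarith) _
  have hε1 : ε < 1 := Real.rpow_lt_one_of_one_lt_of_neg hn1 hq'
  have hεq : ε ^ q = (n : ℝ) + 1 := by
    rw [hε, ← Real.rpow_mul (by linarith), one_div, inv_mul_cancel₀ hq0.ne, Real.rpow_one]
  let c : Fin n → ℝ := fun j => if j.1 = 1 then 1 + ε else (j.1 : ℝ) + 1
  have hc1 : ∀ j, 1 ≤ c j := by
    intro j
    simp only [c]
    split_ifs
    · linarith
    · have : (0 : ℝ) ≤ (j.1 : ℝ) := Nat.cast_nonneg _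
      linarith
  have hcl : ∀ j k : Fin n, j < k → c j < c k := by
    intro j k hjk
    have hjk' : j.1 < k.1 := hjk
    simp only [c]
    split_ifs with h1 h2 h2
    · omega
    · have : (2 : ℝ) ≤ (k.1 : ℝ) := by
        have : 2 ≤ k.1 := by omega
        exact_mod_cast this
      linarith
    · have : j.1 = 0 := by omega
      rw [this]
      push_cast
      linarith
    · have : (j.1 : ℝ) < (k.1 : ℝ) := by exact_mod_cast hjk'
      linarith
  let A : Fin n → (ℂ →L[ℂ] ℂ) := fun j => ((c j : ℝ) : ℂ) • (1 : ℂ →L[ℂ] ℂ)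
  have hsub : ∀ j k, A j - A k = ((c j - c k : ℝ) : ℂ) • (1 : ℂ →L[ℂ] ℂ) := by
    intro j k
    rw [Complex.ofReal_sub]
    exact (sub_smul _ _ _).symm
  have hsum : ∑ j, A j = ((∑ j, c j : ℝ) : ℂ) • (1 : ℂ →L[ℂ] ℂ) := by
    simp only [A]
    rw [← Finset.sum_smul]
    push_cast
    rfl
  have h0n : 0 < n := by omega
  have hscpos : 0 < ∑ j, c j := Finset.sum_pos (fun j _ => lt_of_lt_of_le one_pos (hc1 j))
    ⟨⟨0, h0n⟩, Finset.mem_univ _⟩
  have hsn : ∀ x : ℝ, snorm b0 p ((x : ℂ) • (1 : ℂ →L[ℂ] ℂ)) = ENNReal.ofReal |x| := by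
    intro x
    rw [snorm_scalar hp0, Complex.norm_real, Real.norm_eq_abs]
  have hne : ∀ x : ℝ, x ≠ 0 → (x : ℂ) • (1 : ℂ →L[ℂ] ℂ) ≠ 0 := by
    intro x hx
    intro h
    have h2 := congrArg (fun F : ℂ →L[ℂ] ℂ => F 1) h
    exact hx (by simpa using h2)
  refine ⟨A, fun j => ⟨isCompact_scalar _, ?_⟩, ?_, ?_, ?_, ?_⟩
  · simp only [A]
    rw [hsn]
    exact ENNReal.ofReal_lt_top
  · intro j k hjk h
    have h2 : A j - A k = 0 := by rw [h, sub_self]
    rw [hsub] at h2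
    exact hne _ (by linarith [hcl j k hjk]) h2
  · rw [hsum]
    exact hne _ hscpos.ne'
  · have hL : Lside b0 p q A ≤ (n : ℝ≥0∞) := by
      unfold Lside
      have h1 : (1 : ℝ≥0∞) ≤ ∑ j, snorm b0 p (A j) ^ p := by
        have h2 : snorm b0 p (A ⟨0, h0n⟩) ^ p ≤ ∑ j, snorm b0 p (A j) ^ p :=
          Finset.single_le_sum (f := fun j => snorm b0 p (A j) ^ p) (fun _ _ => zero_le)
            (Finset.mem_univ _)
        refine le_trans ?_ h2
        simp only [A]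
        rw [hsn]
        have : c ⟨0, h0n⟩ = 1 := by simp [c]
        rw [this]
        simp
      have h3 : (∑ j, snorm b0 p (A j) ^ p) ^ (q / p) ≤ 1 := by
        have h4 : q / p = -(-q / p) := by ring
        rw [h4, ENNReal.rpow_neg, ENNReal.inv_le_one]
        exact ENNReal.one_le_rpow h1 (by have := neg_pos.2 hq0; positivity)
      calc (n : ℝ≥0∞) * (∑ j, snorm b0 p (A j) ^ p) ^ (q / p) ≤ n * 1 := by gcongr
        _ = n := mul_one _
    have hR : ((n : ℝ≥0∞) + 1) ≤ Rside b0 p q A := by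
      unfold Rside
      have h1n : 1 < n := by omega
      have h2 : snorm b0 p (A ⟨0, h0n⟩ - A ⟨1, h1n⟩) ^ q ≤
          ∑ j, ∑ k ∈ Finset.Ioi j, snorm b0 p (A j - A k) ^ q := by
        refine le_trans ?_ (Finset.single_le_sum
          (f := fun j => ∑ k ∈ Finset.Ioi j, snorm b0 p (A j - A k) ^ q) (fun _ _ => zero_le)
          (Finset.mem_univ (⟨0, h0n⟩ : Fin n)))
        exact Finset.single_le_sum (f := fun k => snorm b0 p (A ⟨0, h0n⟩ - A k) ^ q)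
          (fun _ _ => zero_le) (Finset.mem_Ioi.2 (by simp [Fin.lt_def]))
      refine le_trans (le_trans (le_of_eq ?_) h2) le_add_self
      rw [hsub, hsn]
      have e1 : |c ⟨0, h0n⟩ - c ⟨1, h1n⟩| = ε := by
        simp only [c]
        simp [abs_of_pos hε0]
      rw [e1, ENNReal.ofReal_rpow_of_pos hε0, hεq, ENNReal.ofReal_add (by positivity) one_pos.le]
      simp
    refine lt_of_le_of_lt hL (lt_of_lt_of_le ?_ hR)
    exact ENNReal.lt_add_right (ENNReal.natCast_ne_top n) one_ne_zero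
  · unfold Rside
    have hfin : ∀ x : ℝ, x ≠ 0 → snorm b0 p ((x : ℂ) • (1 : ℂ →L[ℂ] ℂ)) ^ q < ⊤ := by
      intro x hx
      rw [hsn]
      exact lt_top_iff_ne_top.2 (ENNReal.rpow_ne_top_of_ne_zero
        (by simpa using hx) ENNReal.ofReal_ne_top)
    refine ENNReal.add_lt_top.2 ⟨?_, ?_⟩
    · rw [hsum]
      exact hfin _ hscpos.ne'
    · refine ENNReal.sum_lt_top.2 fun j _ => ENNReal.sum_lt_top.2 fun k hk => ?_
      rw [hsub]
      exact hfin _ (by linarith [hcl j k (Finset.mem_Ioi.1 hk)])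

end Pool.Agent.N678.CL
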